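import Mathlib

/-! A triangular family of diagonal subgroups over any finite quotient of a free group. -/

namespace Pool.Agent.Lib.MP_75c153_gt.Cf

/-- The tuple with `u` in the coordinates `≤ t` and `1` in the others. -/
def grpDiag {P : Type} [Group P] (n t : ℕ) : P →* (Fin n → P) where
  toFun u := fun i => if i.val ≤ t then u else 1
  map_one' := by funext i; simp
  map_mul' u v := by
    funext i
    by_cases h : i.val ≤ t <;> simp [h]

/-- Left multiplication by `u` on the coordinates `≤ t`. -/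
def grpAct {P : Type} [Group P] (n t : ℕ) : P →* Equiv.Perm (Fin n → P) :=
  (MulAction.toPermHom (Fin n → P) (Fin n → P)).comp (grpDiag n t)

theorem grpAct_apply {P : Type} [Group P] (n t : ℕ) (u : P) (w : Fin n → P) (i : Fin n) :
    grpAct n t u w i = (if i.val ≤ t then u else 1) * w i := rfl

/-- The permutations that fix coordinate `t` of every point. -/
def grpFix (P : Type) (n t : ℕ) : Subgroup (Equiv.Perm (Fin n → P)) where
  carrier := {h | ∀ (w : Fin n → P) (i : Fin n), i.val = t → h w i = w i}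
  one_mem' := fun _ _ _ => rfl
  mul_mem' := by
    intro a b ha hb w i hi
    rw [Equiv.Perm.mul_apply, ha _ i hi, hb _ i hi]
  inv_mem' := by
    intro a ha w i hi
    have h1 := ha (a⁻¹ w) i hi
    rw [← h1]
    simp

/-- The twisted shift of the coordinates. -/
def grpXiFun {P : Type} [Group P] (L : ℕ) (c : P) (w : Fin (L + 2) → P) : Fin (L + 2) → P :=
  fun i => c * (if i.val = 0 then w 0 else if i.val = 1 then w 0 * w (Fin.last (L + 1))
    else w ⟨i.val - 1, by omega⟩)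

theorem grpXiFun_inj {P : Type} [Group P] (L : ℕ) (c : P) :
    Function.Injective (grpXiFun L c) := by
  intro w w' h
  have h0 : w 0 = w' 0 := by
    have h1 := congrFun h 0
    simpa [grpXiFun] using h1
  have hl : w (Fin.last (L + 1)) = w' (Fin.last (L + 1)) := by
    have h1 := congrFun h ⟨1, by omega⟩
    simpa [grpXiFun, h0] using h1
  funext j
  by_cases hj0 : j.val = 0
  · have e : j = 0 := Fin.ext hj0
    rw [e, h0]
  by_cases hjl : j.val = L + 1
  · have e : j = Fin.last (L + 1) := Fin.ext hjl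
    rw [e, hl]
  have hlt : j.val + 1 < L + 2 := by have := j.isLt; omega
  have h1 := congrFun h ⟨j.val + 1, hlt⟩
  simpa [grpXiFun, hj0] using h1

/-- The twisted shift as a permutation. -/
noncomputable def grpXi {P : Type} [Group P] [Finite P] (L : ℕ) (c : P) :
    Equiv.Perm (Fin (L + 2) → P) :=
  Equiv.ofBijective (grpXiFun L c) (Finite.injective_iff_bijective.1 (grpXiFun_inj L c))

theorem grpXi_apply {P : Type} [Group P] [Finite P] (L : ℕ) (c : P) (w : Fin (L + 2) → P) :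
    grpXi L c w = grpXiFun L c w := rfl

theorem grpXi_act {P : Type} [Group P] [Finite P] (L : ℕ) (c : P) (t : ℕ) (ht : t < L + 1)
    (u : P) :
    grpXi L c * grpAct (L + 2) t u * (grpXi L c)⁻¹ = grpAct (L + 2) (t + 1) (c * u * c⁻¹) := by
  rw [mul_inv_eq_iff_eq_mul]
  ext w i
  rw [Equiv.Perm.mul_apply, Equiv.Perm.mul_apply, grpAct_apply, grpXi_apply, grpXi_apply]
  unfold grpXiFun
  simp only [grpAct_apply]
  have hl : ¬ (L + 1 ≤ t) := by omega
  by_cases h0 : i.val = 0
  · simp [h0, mul_assoc]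
  by_cases h1 : i.val = 1
  · simp [h1, hl, mul_assoc]
  by_cases h2 : i.val ≤ t + 1
  · have h3 : i.val - 1 ≤ t := by omega
    simp [h0, h1, h2, h3, mul_assoc]
  · have h3 : ¬ (i.val - 1 ≤ t) := by omega
    simp [h0, h1, h2, h3]

theorem grpAct_act {P : Type} [Group P] (n s t : ℕ) (hts : t ≤ s) (v u : P) :
    grpAct n s v * grpAct n t u * (grpAct n s v)⁻¹ = grpAct n t (v * u * v⁻¹) := by
  rw [mul_inv_eq_iff_eq_mul]
  ext w i
  simp only [Equiv.Perm.mul_apply, grpAct_apply]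
  by_cases h : i.val ≤ t
  · have h' : i.val ≤ s := h.trans hts
    simp [h, h', mul_assoc]
  · simp [h]

theorem grp_conj_iff {P H : Type} [Group P] [Group H] (f f' : P →* H) (g : H) (c : P)
    (hc : ∀ u, g * f u * g⁻¹ = f' (c * u * c⁻¹)) (h : H) :
    g * h * g⁻¹ ∈ f'.range ↔ h ∈ f.range := by
  constructor
  · rintro ⟨u, hu⟩
    refine ⟨c⁻¹ * u * c, ?_⟩
    have h1 := hc (c⁻¹ * u * c)
    have h2 : c * (c⁻¹ * u * c) * c⁻¹ = u := by group
    rw [h2, hu] at h1
    exact mul_left_cancel (mul_right_cancel h1)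
  · rintro ⟨u, rfl⟩
    exact ⟨_, (hc u).symm⟩

theorem exists_tri {α P : Type} [Group P] [Finite P] (a₀ : α) (ρ : FreeGroup α →* P) (L : ℕ) :
    ∃ (H : Type) (_ : Group H) (_ : Finite H) (π : FreeGroup α →* H) (I J : ℕ → Subgroup H),
      π.ker ≤ ρ.ker ∧ (∀ t, Nat.card (I t) ≤ Nat.card P) ∧
      (∀ s t, t ≤ s → s ≤ L + 1 → ∀ g ∈ I s, ∀ h, g * h * g⁻¹ ∈ I t ↔ h ∈ I t) ∧
      (∀ t, t < L + 1 → ∀ h,
        π (FreeGroup.of a₀) * h * (π (FreeGroup.of a₀))⁻¹ ∈ I (t + 1) ↔ h ∈ I t) ∧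
      (∀ s t, s < t → t ≤ L + 1 → I s ≤ J t) ∧ (∀ t, t ≤ L + 1 → I t ⊓ J t = ⊥) ∧
      ∀ j, π ((FreeGroup.of a₀)⁻¹ * FreeGroup.of j) ∈ I (L + 1) := by
  obtain ⟨π, hπ⟩ : ∃ π : FreeGroup α →* Equiv.Perm (Fin (L + 2) → P), ∀ j, π (FreeGroup.of j) =
      grpXi L (ρ (FreeGroup.of a₀)) *
        grpAct (L + 2) (L + 1) (ρ ((FreeGroup.of a₀)⁻¹ * FreeGroup.of j)) :=
    ⟨FreeGroup.lift fun j => grpXi L (ρ (FreeGroup.of a₀)) *
      grpAct (L + 2) (L + 1) (ρ ((FreeGroup.of a₀)⁻¹ * FreeGroup.of j)), fun j => by simp⟩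
  have hx : π (FreeGroup.of a₀) = grpXi L (ρ (FreeGroup.of a₀)) := by
    rw [hπ, inv_mul_cancel, map_one, map_one, mul_one]
  have hgen : ∀ (j : α) (w : Fin (L + 2) → P),
      π (FreeGroup.of j) w 0 = ρ (FreeGroup.of j) * w 0 := by
    intro j w
    rw [hπ, Equiv.Perm.mul_apply, grpXi_apply]
    unfold grpXiFun
    simp only [grpAct_apply]
    simp [mul_assoc]
  have hzero : ∀ (g : FreeGroup α) (w : Fin (L + 2) → P), π g w 0 = ρ g * w 0 := by
    intro g
    induction g using FreeGroup.induction_on with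
    | C1 => intro w; simp
    | of j => exact hgen j
    | inv_of j ih =>
      intro w
      have h1 := ih ((π (FreeGroup.of j))⁻¹ w)
      rw [map_inv, map_inv, eq_inv_mul_iff_mul_eq, ← h1]
      simp
    | mul a b iha ihb =>
      intro w
      rw [map_mul, map_mul, Equiv.Perm.mul_apply, iha, ihb, mul_assoc]
  refine ⟨Equiv.Perm (Fin (L + 2) → P), inferInstance, inferInstance, π,
    fun t => (grpAct (L + 2) t).range, fun t => grpFix P (L + 2) t, ?_, ?_, ?_, ?_, ?_, ?_, ?_⟩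
  · intro g hg
    rw [MonoidHom.mem_ker] at hg ⊢
    have h1 := hzero g 1
    rw [hg] at h1
    simpa using h1.symm
  · intro t
    exact Nat.card_le_card_of_surjective _ (grpAct (P := P) (L + 2) t).rangeRestrict_surjective
  · rintro s t hts - g ⟨v, rfl⟩ h
    exact grp_conj_iff _ _ _ v (grpAct_act (L + 2) s t hts v) h
  · intro t ht h
    rw [hx]
    exact grp_conj_iff _ _ _ _ (grpXi_act L _ t ht) h
  · rintro s t hst - g ⟨v, rfl⟩ w i hi
    have h1 : ¬ (i.val ≤ s) := by omega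
    rw [grpAct_apply, if_neg h1, one_mul]
  · intro t ht
    rw [eq_bot_iff]
    rintro g ⟨⟨v, rfl⟩, hv⟩
    have h1 := hv 1 ⟨t, by omega⟩ rfl
    rw [grpAct_apply] at h1
    have h2 : v = 1 := by simpa using h1
    rw [h2, map_one]
    exact Subgroup.one_mem _
  · intro j
    refine ⟨ρ ((FreeGroup.of a₀)⁻¹ * FreeGroup.of j), ?_⟩
    rw [map_mul π, map_inv π, hx, hπ, inv_mul_cancel_left]

end Pool.Agent.Lib.MP_75c153_gt.Cf
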