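import Pool.Agent.Lib.MP_570070_gt.Stage

/-! Commuting projections attached to a triangular family of subgroups. -/

namespace Pool.Agent.Lib.MP_75c153_gt.Cf

open Matrix Pool.Agent.Lib.MP_570070_gt

section

variable {H : Type} [Group H] [Fintype H] [DecidableEq H]

theorem pj_comm {I J : Subgroup H} (h : ∀ g ∈ I, ∀ k, g * k * g⁻¹ ∈ J ↔ k ∈ J) :
    Commute (sumOf I) (sumOf J) := by
  rw [sumOf]
  refine Commute.sum_left _ _ _ fun g _ => ?_
  split_ifs with hg
  · exact conj_sumOf (h g hg)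
  · exact Commute.zero_left _

theorem pj_sq (I : Subgroup H) : sumOf I * sumOf I = (Nat.card I : ℝ) • sumOf I := by
  classical
  have e : ∀ g, (if g ∈ I then reg H g else 0) * sumOf I =
      (if g ∈ I then 1 else 0 : ℝ) • sumOf I := fun g => by
    split_ifs with hg
    · rw [mul_sumOf hg, one_smul]
    · rw [zero_mul, zero_smul]
  conv_lhs => rw [sumOf, Finset.sum_mul, ← sumOf]
  simp only [e]
  rw [← Finset.sum_smul, Finset.sum_boole, Nat.card_eq_fintype_card, Fintype.card_subtype]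

/-- The projection onto the invariant vectors of a subgroup. -/
noncomputable def pjP (I : Subgroup H) : Matrix H H ℝ := (Nat.card I : ℝ)⁻¹ • sumOf I

omit [DecidableEq H] in
theorem pj_pos (I : Subgroup H) : (1 : ℝ) ≤ Nat.card I := by
  exact_mod_cast Nat.card_pos

theorem pj_kill (I : Subgroup H) : (1 - pjP I) * sumOf I = 0 := by
  rw [sub_mul, one_mul, pjP, smul_mul_assoc, pj_sq, smul_smul,
    inv_mul_cancel₀ (by linarith [pj_pos I]), one_smul, sub_self]

theorem pj_idem (I : Subgroup H) : (1 - pjP I) * (1 - pjP I) = 1 - pjP I := by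
  rw [mul_sub, mul_one]
  conv_lhs => rw [show (1 - pjP I) * pjP I = 0 by
    rw [show pjP I = (Nat.card I : ℝ)⁻¹ • sumOf I from rfl, mul_smul_comm, ← pjP, pj_kill,
      smul_zero]]
  rw [sub_zero]

/-- The product of the complementary projections. -/
noncomputable def pjQ (I : ℕ → Subgroup H) : ℕ → Matrix H H ℝ
  | 0 => 1
  | t + 1 => pjQ I t * (1 - pjP (I t))

theorem pj_tr (M : Matrix H H ℝ) (I : Subgroup H) (h : H) [DecidablePred (· ∈ I)] :
    (M * sumOf I * reg H h).trace = ∑ g, if g ∈ I then (M * reg H (g * h)).trace else 0 := by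
  rw [sumOf, Finset.mul_sum, Finset.sum_mul, trace_sum]
  refine Finset.sum_congr rfl fun g _ => ?_
  by_cases hg : g ∈ I
  · rw [if_pos hg, if_pos hg, mul_assoc, ← map_mul]
  · rw [if_neg hg, if_neg hg, mul_zero, zero_mul, trace_zero]

variable {L : ℕ} {I J : ℕ → Subgroup H}

theorem pj_commQ (hc : ∀ s t, s ≤ L → t ≤ L → Commute (sumOf (I s)) (sumOf (I t))) {s : ℕ}
    (hs : s ≤ L) : ∀ t, t ≤ L + 1 → Commute (pjQ I t) (sumOf (I s))
  | 0, _ => Commute.one_left _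
  | t + 1, ht => (pj_commQ hc hs t (by omega)).mul_left
      ((Commute.one_left _).sub_left ((hc t s (by omega) hs).smul_left _))

theorem pj_commQ' (hc : ∀ s t, s ≤ L → t ≤ L → Commute (sumOf (I s)) (sumOf (I t))) {s : ℕ}
    (hs : s ≤ L) {t : ℕ} (ht : t ≤ L + 1) : Commute (pjQ I t) (1 - pjP (I s)) :=
  (Commute.one_right _).sub_right ((pj_commQ hc hs t ht).smul_right _)

theorem pj_symm (hc : ∀ s t, s ≤ L → t ≤ L → Commute (sumOf (I s)) (sumOf (I t))) :
    ∀ t, t ≤ L + 1 → (pjQ I t)ᵀ = pjQ I t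
  | 0, _ => transpose_one
  | t + 1, ht => by
    rw [pjQ, transpose_mul, pj_symm hc t (by omega), transpose_sub, transpose_one, pjP,
      transpose_smul, sumOf_transpose]
    exact (pj_commQ' hc (by omega) (by omega)).symm

theorem pj_idemQ (hc : ∀ s t, s ≤ L → t ≤ L → Commute (sumOf (I s)) (sumOf (I t))) :
    ∀ t, t ≤ L + 1 → pjQ I t * pjQ I t = pjQ I t
  | 0, _ => mul_one _
  | t + 1, ht => by
    rw [pjQ, (pj_commQ' hc (s := t) (t := t) (by omega) (by omega)).symm.mul_mul_mul_comm,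
      pj_idemQ hc t (by omega), pj_idem]

theorem pj_killQ (hc : ∀ s t, s ≤ L → t ≤ L → Commute (sumOf (I s)) (sumOf (I t))) {s : ℕ} :
    ∀ t, s < t → t ≤ L + 1 → pjQ I t * sumOf (I s) = 0
  | 0, h, _ => absurd h (by omega)
  | t + 1, h, ht => by
    rcases (Nat.lt_succ_iff.1 h).eq_or_lt with rfl | h1
    · rw [pjQ, mul_assoc, pj_kill, mul_zero]
    · rw [pjQ, (pj_commQ' hc (s := t) (t := t) (by omega) (by omega)).eq, mul_assoc,
        pj_killQ hc t h1 (by omega), mul_zero]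

theorem pj_ann (hc : ∀ s t, s ≤ L → t ≤ L → Commute (sumOf (I s)) (sumOf (I t)))
    {M : Matrix H H ℝ} (hM : ∀ t, t ≤ L → M * sumOf (I t) = 0) :
    ∀ t, t ≤ L + 1 → M * (1 - pjQ I t) = 0
  | 0, _ => by rw [pjQ, sub_self, mul_zero]
  | t + 1, ht => by
    have h1 := pj_ann hc hM t (by omega)
    have h2 : M * pjP (I t) = 0 := by rw [pjP, mul_smul_comm, hM t (by omega), smul_zero]
    rw [pjQ, (pj_commQ' hc (s := t) (t := t) (by omega) (by omega)).eq, mul_sub, mul_one,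
      ← mul_assoc, mul_sub, mul_one, h2, sub_zero]
    rwa [mul_sub, mul_one] at h1

theorem pj_tr0 (hIJ : ∀ s t, s < t → t ≤ L → I s ≤ J t) {u : ℕ} (hu : u ≤ L) :
    ∀ t, t ≤ u → ∀ h, h ∉ J u → (pjQ I t * reg H h).trace = 0
  | 0, _, h, hh => by
    rw [pjQ, one_mul, reg_trace, if_neg fun e => hh (by rw [e]; exact (J u).one_mem)]
  | t + 1, ht, h, hh => by
    classical
    rw [pjQ, mul_sub, mul_one, sub_mul, trace_sub, pj_tr0 hIJ hu t (by omega) h hh, pjP,
      mul_smul_comm, smul_mul_assoc, trace_smul, pj_tr, Finset.sum_eq_zero, smul_zero, sub_zero]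
    intro g _
    split_ifs with hg
    · exact pj_tr0 hIJ hu t (by omega) _ fun h1 =>
        hh ((mul_mem_cancel_left (hIJ t u ht hu hg)).1 h1)
    · rfl

theorem pj_trQ (hIJ : ∀ s t, s < t → t ≤ L → I s ≤ J t) (hdis : ∀ t, t ≤ L → I t ⊓ J t = ⊥)
    {t : ℕ} (ht : t ≤ L) :
    (pjQ I (t + 1)).trace = (pjQ I t).trace * (1 - 1 / (Nat.card (I t) : ℝ)) := by
  classical
  have h1 : (pjQ I t * sumOf (I t)).trace = (pjQ I t).trace := by
    have h2 := pj_tr (pjQ I t) (I t) 1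
    rw [map_one, mul_one, Finset.sum_eq_single 1] at h2
    · simpa [(I t).one_mem] using h2
    · intro g _ hg
      split_ifs with h3
      · refine pj_tr0 hIJ ht t le_rfl _ fun h4 => hg ?_
        rw [mul_one] at h4
        exact Subgroup.mem_bot.1 (hdis t ht ▸ Subgroup.mem_inf.2 ⟨h3, h4⟩)
      · rfl
    · simp
  rw [pjQ, mul_sub, mul_one, trace_sub, pjP, mul_smul_comm, trace_smul, h1, smul_eq_mul]
  ring

theorem pj_trle {k : ℕ} (hk : ∀ t, Nat.card (I t) ≤ k) (hIJ : ∀ s t, s < t → t ≤ L → I s ≤ J t)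
    (hdis : ∀ t, t ≤ L → I t ⊓ J t = ⊥) : ∀ t, t ≤ L + 1 →
      0 ≤ (pjQ I t).trace ∧ (pjQ I t).trace ≤ (Fintype.card H : ℝ) * (1 - 1 / (k : ℝ)) ^ t
  | 0, _ => by simp [pjQ]
  | t + 1, ht => by
    obtain ⟨h1, h2⟩ := pj_trle hk hIJ hdis t (by omega)
    have h3 := pj_pos (I t)
    have h4 : (Nat.card (I t) : ℝ) ≤ k := by exact_mod_cast hk t
    have h5 : 0 ≤ 1 - 1 / (Nat.card (I t) : ℝ) := by
      rw [sub_nonneg, div_le_one (by linarith)]
      exact h3
    have h6 : 1 - 1 / (Nat.card (I t) : ℝ) ≤ 1 - 1 / (k : ℝ) :=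
      sub_le_sub_left (one_div_le_one_div_of_le (by linarith) h4) _
    rw [pj_trQ hIJ hdis (by omega), pow_succ, ← mul_assoc]
    exact ⟨mul_nonneg h1 h5, mul_le_mul h2 h6 h5 (h1.trans h2)⟩

end

theorem exists_proj {H : Type} [Group H] [Fintype H] [DecidableEq H] (L k : ℕ)
    (I J : ℕ → Subgroup H) (x : H) (b : Matrix H H ℝ) (hk : ∀ t, Nat.card (I t) ≤ k)
    (hnorm : ∀ s t, t ≤ s → s ≤ L → ∀ g ∈ I s, ∀ h, g * h * g⁻¹ ∈ I t ↔ h ∈ I t)
    (hshift : ∀ t, t < L → ∀ h, x * h * x⁻¹ ∈ I (t + 1) ↔ h ∈ I t)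
    (hIJ : ∀ s t, s < t → t ≤ L → I s ≤ J t) (hdis : ∀ t, t ≤ L → I t ⊓ J t = ⊥)
    (hb : ∀ t, t ≤ L → b * sumOf (I t) = sumOf (I t) * b) (hb0 : b * sumOf (I L) = 0) :
    ∃ Q : Matrix H H ℝ, Qᵀ = Q ∧ Q * Q = Q ∧ Q * (reg H x * b) * (1 - Q) = 0 ∧
      (reg H x * b) ^ (L + 1) * (1 - Q) = 0 ∧
      Q.trace ≤ (Fintype.card H : ℝ) * (1 - 1 / (k : ℝ)) ^ (L + 1) := by
  have hc : ∀ s t, s ≤ L → t ≤ L → Commute (sumOf (I s)) (sumOf (I t)) := fun s t hs ht => by
    rcases le_total t s with h | h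
    · exact pj_comm (hnorm s t h hs)
    · exact (pj_comm (hnorm t s h ht)).symm
  have hN : ∀ t, t < L → reg H x * b * sumOf (I t) = sumOf (I (t + 1)) * (reg H x * b) :=
    fun t ht => by
      rw [mul_assoc, hb t ht.le, ← mul_assoc, conj_sumOf (hshift t ht), mul_assoc]
  have hN0 : reg H x * b * sumOf (I L) = 0 := by rw [mul_assoc, hb0, mul_zero]
  have hp : ∀ j t, t + j = L → (reg H x * b) ^ (j + 1) * sumOf (I t) = 0 := by
    intro j
    induction j with
    | zero =>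
      rintro t rfl
      simpa using hN0
    | succ j ih =>
      intro t ht
      rw [pow_succ, mul_assoc, hN t (by omega), ← mul_assoc, ih (t + 1) (by omega), zero_mul]
  refine ⟨pjQ I (L + 1), pj_symm hc _ le_rfl, pj_idemQ hc _ le_rfl,
    pj_ann hc (fun t ht => ?_) _ le_rfl, pj_ann hc (fun t ht => ?_) _ le_rfl,
    (pj_trle hk hIJ hdis _ le_rfl).2⟩
  · rcases ht.eq_or_lt with rfl | h
    · rw [mul_assoc, hN0, mul_zero]
    · rw [mul_assoc, hN t h, ← mul_assoc, pj_killQ hc _ (by omega) le_rfl, zero_mul]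
  · rw [show L + 1 = t + (L - t + 1) by omega, pow_add, mul_assoc, hp _ t (by omega), mul_zero]

end Pool.Agent.Lib.MP_75c153_gt.Cf
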