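import Pool.Agent.Lib.MP_75c153_gt.Cf.CfMat
import Pool.Agent.Lib.MP_75c153_gt.Cf.CfProj
import Pool.Agent.Lib.MP_75c153_gt.Cf.CfGrp
import Pool.Agent.Lib.MP_75c153_gt.Ft.SpLev

/-! A chain that is cofinal among the subgroups of finite index. -/

namespace Pool.Agent.Lib.MP_75c153_gt.Cf

open Matrix Filter Topology Pool.Agent.Lib.MP_570070_gt Pool.Agent.Lib.MP_75c153_gt.Ft

variable {α : Type} [Fintype α]

/-- `K` is the kernel of a map to a finite group whose regular representation has a small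
logarithmic determinant at `a`. -/
def Small {G : Type} [Group G] (a : MonoidAlgebra ℤ G) (K : Subgroup G) : Prop :=
  ∃ (H : Type) (_ : Group H) (_ : Fintype H) (_ : DecidableEq H) (π : G →* H), π.ker = K ∧
    ∀ hM : (rep ((reg H).comp π) a * (rep ((reg H).comp π) a)ᵀ).IsHermitian,
      ((eigs hM).map Real.log).sum ≤ Fintype.card H

theorem exists_len {θ C : ℝ} (h0 : 0 ≤ θ) (h1 : θ < 1) (hC : 0 < C) :
    ∃ L : ℕ, θ ^ (L + 1 + 1) * ((((L + 1 : ℕ) : ℝ) + 3) * C) ≤ 1 / 2 := by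
  have h := (tendsto_self_mul_const_pow_of_lt_one h0 h1).eventually
    (eventually_le_nhds (show (0 : ℝ) < 1 / (4 * C) by positivity))
  obtain ⟨m, hm, hm2⟩ := (h.and (eventually_ge_atTop 2)).exists
  obtain ⟨L, rfl⟩ := Nat.exists_eq_add_of_le' hm2
  refine ⟨L, ?_⟩
  rw [le_div_iff₀ (by positivity)] at hm
  have h2 : 0 ≤ θ ^ (L + 2) * C := by positivity
  have h3 : (0 : ℝ) ≤ L := Nat.cast_nonneg L
  push_cast at hm ⊢
  nlinarith [mul_nonneg h3 h2]

theorem exists_small {P : Type} [Group P] [Finite P] (a₀ : α) (cs : α → ℤ)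
    (ρ : FreeGroup α →* P) :
    ∃ K, K ≤ ρ.ker ∧ Small (elj (FreeGroup.of a₀) (qy a₀) cs) K := by
  classical
  obtain ⟨B, hB, hBd⟩ := exists_bd (MonoidAlgebra.single (FreeGroup.of a₀) (1 : ℤ) *
    ∑ j, cs j • (1 - MonoidAlgebra.single (qy a₀ j) (1 : ℤ)))
  have hk : (1 : ℝ) ≤ Nat.card P := by exact_mod_cast Nat.card_pos
  obtain ⟨L, hL⟩ := exists_len (θ := 1 - 1 / (Nat.card P : ℝ)) (C := 2 + 2 * B)
    (by rw [sub_nonneg, div_le_one (by linarith)]; exact hk)
    (by have : 0 < 1 / (Nat.card P : ℝ) := by positivity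
        linarith) (by linarith)
  obtain ⟨H, _, _, π, I, J, h1, h2, h3, h4, h5, h6, h7⟩ := exists_tri a₀ ρ L
  let iF := Fintype.ofFinite H
  refine ⟨π.ker, h1, H, inferInstance, iF, inferInstance, π, rfl, ?_⟩
  set r := (reg H).comp π with hr
  have hr' : ∀ g, r g⁻¹ = (r g)ᵀ := fun g => by
    rw [hr, MonoidHom.comp_apply, map_inv, reg_inv]
    rfl
  set b : Matrix H H ℝ := ∑ j, cs j • (1 - r (qy a₀ j)) with hb
  have hN : rep r (MonoidAlgebra.single (FreeGroup.of a₀) (1 : ℤ) *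
      ∑ j, cs j • (1 - MonoidAlgebra.single (qy a₀ j) (1 : ℤ))) =
      reg H (π (FreeGroup.of a₀)) * b := by
    simp only [map_one, map_mul, map_sum, map_sub, rep_single, one_smul, hb, map_zsmul]
    rfl
  have hA : rep r (elj (FreeGroup.of a₀) (qy a₀) cs) = 1 + reg H (π (FreeGroup.of a₀)) * b := by
    rw [elj, map_add, map_one, hN]
  obtain ⟨Q, q1, q2, q3, q4, q5⟩ := exists_proj (L + 1) (Nat.card P) I J (π (FreeGroup.of a₀)) b
    h2 h3 h4 h5 h6 (fun t ht => by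
      simp only [hb, Finset.sum_mul, Finset.mul_sum, sub_mul, mul_sub, one_mul, mul_one,
        smul_mul_assoc, mul_smul_comm]
      exact Finset.sum_congr rfl fun j _ =>
        congrArg _ (congrArg _ (conj_sumOf (h3 _ t ht le_rfl _ (h7 j))))) (by
      rw [hb, Finset.sum_mul]
      refine Finset.sum_eq_zero fun j _ => ?_
      rw [smul_mul_assoc, sub_mul, one_mul]
      exact smul_eq_zero_of_right _ (sub_eq_zero.2 (mul_sumOf (h7 j)).symm))
  have hd := hBd H r hr'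
  rw [hN] at hd
  rw [hA]
  intro hM
  refine (tri_sum_log_le q1 q2 q3 q4 hB hd hM).trans ?_
  have hH : (0 : ℝ) ≤ Fintype.card H := Nat.cast_nonneg _
  have h8 := mul_le_mul_of_nonneg_right q5
    (show (0 : ℝ) ≤ (((L + 1 : ℕ) : ℝ) + 3) * (2 + 2 * B) by positivity)
  have h9 := mul_le_mul_of_nonneg_left hL hH
  rw [mul_assoc] at h8
  linarith

theorem exists_chain_cof [Group.ResiduallyFinite (FreeGroup α)] (a₀ : α) (cs : α → ℤ) :
    ∃ K : ℕ → Subgroup (FreeGroup α), (∀ i, (K i).Normal) ∧ K 0 = ⊤ ∧ StrictAnti K ∧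
      ⨅ i, K i = ⊥ ∧ (∀ i, (K i).FiniteIndex) ∧
      (∀ N : Subgroup (FreeGroup α), N.FiniteIndex → ∃ i, K i ≤ N) ∧
      ∀ i, Small (elj (FreeGroup.of a₀) (qy a₀) cs) (K (i + 1)) := by
  classical
  have : Nonempty α := ⟨a₀⟩
  obtain ⟨e, he⟩ := exists_surjective_nat (Finset (FreeGroup α))
  have key : ∀ (K : {K : Subgroup (FreeGroup α) // K.Normal ∧ K.FiniteIndex})
      (s : Finset (FreeGroup α)), ∃ K' : Subgroup (FreeGroup α), (K'.Normal ∧ K'.FiniteIndex) ∧
      K' < K.1 ∧ ((Subgroup.closure (s : Set (FreeGroup α))).FiniteIndex →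
        K' ≤ Subgroup.closure (s : Set (FreeGroup α))) ∧
      Small (elj (FreeGroup.of a₀) (qy a₀) cs) K' := by
    rintro ⟨K, hK, hF⟩ s
    obtain ⟨g, hg, hg1⟩ : ∃ g ∈ K, g ≠ 1 := by
      by_contra h
      have h4 : K = ⊥ := (Subgroup.eq_bot_iff_forall K).2 fun k hk =>
        by_contra fun h5 => h ⟨k, hk, h5⟩
      have h5 := hF.index_ne_zero
      rw [h4, Subgroup.index_bot] at h5
      exact h5 Nat.card_eq_zero_of_infinite
    obtain ⟨M, hM⟩ := Group.exists_finiteIndexNormalSubgroup_notMem g hg1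
    obtain ⟨N, n1, n2, n3⟩ : ∃ N : Subgroup (FreeGroup α), N.Normal ∧ N.FiniteIndex ∧
        ((Subgroup.closure (s : Set (FreeGroup α))).FiniteIndex →
          N ≤ Subgroup.closure (s : Set (FreeGroup α))) := by
      by_cases h : (Subgroup.closure (s : Set (FreeGroup α))).FiniteIndex
      · exact ⟨_, inferInstance, Subgroup.finiteIndex_normalCore _,
          fun _ => Subgroup.normalCore_le _⟩
      · exact ⟨⊤, inferInstance, inferInstance, fun h' => absurd h' h⟩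
    have : Finite (FreeGroup α ⧸ (K ⊓ M.toSubgroup ⊓ N)) := Subgroup.finite_quotient_of_finiteIndex
    obtain ⟨K', k1, k2⟩ := exists_small a₀ cs (QuotientGroup.mk' (K ⊓ M.toSubgroup ⊓ N))
    rw [QuotientGroup.ker_mk'] at k1
    refine ⟨K', ?_, lt_of_le_of_ne (k1.trans (inf_le_left.trans inf_le_left)) fun h => ?_,
      fun h => k1.trans (inf_le_right.trans (n3 h)), k2⟩
    · obtain ⟨H, _, _, _, π, rfl, -⟩ := k2
      exact ⟨inferInstance, inferInstance⟩
    · exact hM (k1 (h ▸ hg)).1.2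
  choose nx h1 h2 h3 h4 using key
  let f : ℕ → {K : Subgroup (FreeGroup α) // K.Normal ∧ K.FiniteIndex} :=
    fun n => n.rec ⟨⊤, inferInstance, inferInstance⟩ fun n S => ⟨nx S (e n), h1 _ _⟩
  have cof : ∀ N : Subgroup (FreeGroup α), N.FiniteIndex → ∃ i, (f i).1 ≤ N := by
    intro N hN
    obtain ⟨s, rfl⟩ := (Group.fg_iff_subgroup_fg N).1 (Subgroup.fg_of_index_ne_zero N)
    obtain ⟨n, rfl⟩ := he s
    exact ⟨n + 1, h3 (f n) (e n) hN⟩
  refine ⟨fun n => (f n).1, fun n => (f n).2.1, rfl,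
    strictAnti_nat_of_succ_lt fun n => h2 (f n) (e n), ?_, fun n => (f n).2.2, cof,
    fun n => h4 (f n) (e n)⟩
  rw [eq_bot_iff]
  intro g hg
  refine Group.eq_one_iff_forall_finiteIndexNormalSubroup g fun M => ?_
  obtain ⟨i, hi⟩ := cof M.toSubgroup inferInstance
  exact hi (Subgroup.mem_iInf.1 hg i)

end Pool.Agent.Lib.MP_75c153_gt.Cf
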