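import Pool.Agent.Lib.MP_75c153_gt.Cf.CfSpec
import Pool.Agent.Lib.MP_75c153_gt.Ft.Exist

/-! The gap of the torsions along the cofinal chain. -/

open MeasureTheory Filter Topology Set
open scoped ContDiff InnerProductSpace

namespace Pool.Agent.Lib.MP_75c153_gt.Ft

open Pool.Agent.Lib.MP_570070_gt.An

theorem up_main_cof : ∃ (c : Par) (K : ℕ → Subgroup (FreeGroup (Fin (c.m + 1))))
    (_ : ∀ i, (K i).Normal), K 0 = ⊤ ∧ StrictAnti K ∧ ⨅ i, K i = ⊥ ∧ (∀ i, (K i).FiniteIndex) ∧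
    (∀ N : Subgroup (FreeGroup (Fin (c.m + 1))), N.FiniteIndex → ∃ i, K i ≤ N) ∧
    ∀ (ρ : ℝ) (r : ℕ → ℝ),
      UpTorsion (grpGl c fun e => (e.elim 1 FreeGroup.of : FreeGroup (Fin (c.m + 1)))) (base _) ρ →
      (∀ i, UpTorsion (grpGl c fun e => ((e.elim 1 FreeGroup.of : FreeGroup (Fin (c.m + 1))) :
        FreeGroup (Fin (c.m + 1)) ⧸ K i)) (base _) (r i)) →
      ∀ᶠ i in atTop, r i ≤ ρ - 1 / 8 := by
  obtain ⟨c, K, _, _, x, h0, hs, hi, hfi, hcof, hW, hlog⟩ := Cf.exists_spec_cof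
  refine ⟨c, K, inferInstance, h0, hs, hi, hfi, hcof, fun ρ r hρ hr => ?_⟩
  have ha := hs.antitone
  set g : Ed c → FreeGroup (Fin (c.m + 1)) := fun e => e.elim 1 FreeGroup.of
  have h1 : g none = 1 := rfl
  have hg : Subgroup.closure (range g) = ⊤ := top_le_iff.1 <|
    (FreeGroup.closure_range_of _).ge.trans (Subgroup.closure_mono (by
      rintro _ ⟨j, rfl⟩
      exact ⟨some j, rfl⟩))
  obtain ⟨U, Pt, I, hP, hI, e⟩ := hρ.reduce
  choose U' Pt' J hP' hJ e' using fun i => (hr i).reduce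
  have l := fun k (hk : k ≤ 2) => local_grp c g K ha hi hk U (hP k) (hI k (by omega)).1
    (hI k (by omega)).2 U' (fun i => hP' i k) fun i => (hJ i k (by omega)).1
  have m := fun k (hk : k ≤ 5) => heat_tr_antitone (isHeat₂_of_isHeat (hP k)) _ (hI k hk).1
  have n := fun k (hk : k ≤ 5) i => heat_tr_antitone (isHeat₂_of_isHeat (hP' i k)) _ (hJ i k hk).1
  obtain ⟨C, hC⟩ := tail_one_grp c ((trOn (U.on 1 (base _)) (Pt 1 2)).toReal + 2)
  obtain ⟨κ, hκ, hT⟩ := tail_two_grp c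
  have gen : ∀ i, Subgroup.closure (range fun e => (g e : _ ⧸ K i)) = ⊤ := fun i => by
    have := congrArg (Subgroup.map (QuotientGroup.mk' (K i))) hg
    rwa [MonoidHom.map_closure, ← range_comp,
      Subgroup.map_top_of_surjective _ (QuotientGroup.mk'_surjective _)] at this
  have key := final_gap5 (hI 0 (by norm_num)).2 (hI 1 (by norm_num)).2 (hI 2 (by norm_num)).2
    (fun i => (hJ i 0 (by norm_num)).2) (fun i => (hJ i 1 (by norm_num)).2)
    (fun i => (hJ i 2 (by norm_num)).2) (m 0 (by norm_num)) (m 1 (by norm_num)) (m 2 (by norm_num))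
    (n 0 (by norm_num)) (n 1 (by norm_num)) (n 2 (by norm_num)) (l 0 (by norm_num))
    (l 1 (by norm_num)) (l 2 le_rfl) (C := C) (γ := 1 / 4) (by norm_num)
    ((l 1 (by norm_num) 2 1 one_pos).mono fun i h => hC (fun e => (g e : _ ⧸ K i))
      (by simp [h1]) (gen i) (U' i) (hP' i 1) (hJ i 1 (by norm_num)).1 (by
        have := (abs_le.1 (h 2 ⟨two_pos, le_rfl⟩)).2
        linarith))
    (c := 1 / 2) (by norm_num) (fun T hT1 => by
      filter_upwards [hlog (max 1 (2 * T / κ)) (le_max_left _ _)] with i h b hb hint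
      have hd : (0 : ℝ) < Fintype.card (_ ⧸ K i) := by exact_mod_cast Fintype.card_pos
      refine le_trans ?_ (tail_integral (x i) hκ (d := 2 * Fintype.card (_ ⧸ K i))
        (by positivity) hT1 hint fun t ht => ?_)
      · rw [le_div_iff₀ (by positivity)]
        linarith
      · obtain ⟨W, w1, w2⟩ := hW i (κ / (2 * t))
        rw [← w1]
        exact hT _ (U' i) (hP' i 2) (hJ i 2 (by norm_num)).1 t ht W w2 b hb)
  filter_upwards [key] with i h
  linarith [e' i]

end Pool.Agent.Lib.MP_75c153_gt.Ft
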