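import Pool.Agent.Lib.MP_570070_gt.Mat

/-! A matrix that is unipotent on an invariant subspace of very small codimension. -/

namespace Pool.Agent.Lib.MP_75c153_gt.Cf

open Matrix Pool.Agent.Lib.MP_570070_gt

variable {n : Type} [Fintype n] [DecidableEq n]

/-- Left multiplication by `X` multiplies the squared Frobenius norm by at most `B`. -/
def Bd (X : Matrix n n ℝ) (B : ℝ) : Prop :=
  ∀ Y : Matrix n n ℝ, ((X * Y)ᵀ * (X * Y)).trace ≤ B * (Yᵀ * Y).trace

omit [DecidableEq n] in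
theorem cfm_nonneg (X : Matrix n n ℝ) : 0 ≤ (Xᵀ * X).trace := trace_mul_transpose_nonneg Xᵀ

omit [DecidableEq n] in
theorem cfm_par (X Y : Matrix n n ℝ) : ((X + Y)ᵀ * (X + Y)).trace +
    ((X - Y)ᵀ * (X - Y)).trace = 2 * (Xᵀ * X).trace + 2 * (Yᵀ * Y).trace := by
  simp only [transpose_add, transpose_sub, add_mul, mul_add, sub_mul, mul_sub, trace_add,
    trace_sub]
  ring

omit [DecidableEq n] in
theorem cfm_add (X Y : Matrix n n ℝ) :
    ((X + Y)ᵀ * (X + Y)).trace ≤ 2 * (Xᵀ * X).trace + 2 * (Yᵀ * Y).trace := by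
  linarith [cfm_par X Y, cfm_nonneg (X - Y)]

omit [DecidableEq n] in
theorem cfm_sub (X Y : Matrix n n ℝ) :
    ((X - Y)ᵀ * (X - Y)).trace ≤ 2 * (Xᵀ * X).trace + 2 * (Yᵀ * Y).trace := by
  linarith [cfm_par X Y, cfm_nonneg (X + Y)]

theorem exists_bd {G : Type} [Group G] (a : MonoidAlgebra ℤ G) : ∃ B : ℝ, 1 ≤ B ∧
    ∀ (n : Type) [Fintype n] [DecidableEq n] (ρ : G →* Matrix n n ℝ),
      (∀ g, ρ g⁻¹ = (ρ g)ᵀ) → Bd (rep ρ a) B := by
  induction a using MonoidAlgebra.induction_linear with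
  | zero =>
    refine ⟨1, le_rfl, fun n _ _ ρ _ Y => ?_⟩
    rw [map_zero, zero_mul, mul_zero, trace_zero, one_mul]
    exact cfm_nonneg Y
  | add x y hx hy =>
    obtain ⟨B, hB, hx⟩ := hx
    obtain ⟨C, hC, hy⟩ := hy
    refine ⟨2 * B + 2 * C, by linarith, fun n _ _ ρ hρ Y => ?_⟩
    rw [map_add, add_mul]
    linarith [cfm_add (rep ρ x * Y) (rep ρ y * Y), hx n ρ hρ Y, hy n ρ hρ Y]
  | single g c =>
    refine ⟨(c : ℝ) ^ 2 + 1, by linarith [sq_nonneg (c : ℝ)], fun n _ _ ρ hρ Y => ?_⟩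
    have h : (ρ g * Y)ᵀ * (ρ g * Y) = Yᵀ * Y := by
      rw [transpose_mul, Matrix.mul_assoc, ← Matrix.mul_assoc (ρ g)ᵀ, ← hρ, ← map_mul,
        inv_mul_cancel, map_one, Matrix.one_mul]
    rw [rep_single, ← Int.cast_smul_eq_zsmul ℝ, Matrix.smul_mul, transpose_smul, Matrix.smul_mul,
      Matrix.mul_smul, h, trace_smul, trace_smul, smul_eq_mul, smul_eq_mul]
    linarith [cfm_nonneg Y]

theorem cfm_inv {N R : Matrix n n ℝ} {B : ℝ} (hR : R * N * R = N * R) (hRR : R * R = R)
    (hB : 1 ≤ B) (hN : Bd N B) (i : ℕ) : ∃ G : Matrix n n ℝ, Bd G ((2 + 2 * B) ^ i) ∧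
      (1 + N) * G = 1 - (-N) ^ (i + 1) ∧ R * (G * R) = G * R := by
  induction i with
  | zero => exact ⟨1, fun Y => by simp, by simp, by rw [one_mul, hRR]⟩
  | succ i ih =>
    obtain ⟨G, h1, h2, h3⟩ := ih
    refine ⟨1 - N * G, fun Y => ?_, ?_, ?_⟩
    · have a := cfm_sub Y (N * (G * Y))
      have b := mul_le_mul_of_nonneg_left (h1 Y) (zero_le_one.trans hB)
      have c := mul_le_mul_of_nonneg_right
        (one_le_pow₀ (show 1 ≤ 2 + 2 * B by linarith) (n := i)) (cfm_nonneg Y)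
      rw [sub_mul, one_mul, mul_assoc, pow_succ]
      linarith [hN (G * Y)]
    · have e : (1 + N) * (1 - N * G) = 1 + N - N * ((1 + N) * G) := by noncomm_ring
      rw [e, h2, pow_succ' (-N) (i + 1)]
      noncomm_ring
    · have e : R * (N * (G * R)) = N * (G * R) := by
        rw [← h3, ← mul_assoc N, ← hR]
        simp only [← mul_assoc, hRR]
      rw [sub_mul, one_mul, mul_sub, hRR, mul_assoc N, e]

theorem cfm_logdet {K : Matrix n n ℝ} (hK : K.PosSemidef) (hd : 0 < K.det) :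
    Real.log K.det ≤ K.trace - Fintype.card n := by
  obtain ⟨h1, h2⟩ := sum_log_eigs_of_det hK hd.ne'
  rw [Real.norm_of_nonneg hd.le] at h1
  have h3 := trace_pow_eq hK.isHermitian 1
  simp only [RCLike.ofReal_real_eq_id, id, pow_one] at h3
  have h4 : ((eigs hK.isHermitian).map Real.log).sum ≤
      ((eigs hK.isHermitian).map fun x => x - 1).sum :=
    Multiset.sum_map_le_sum_map _ _ fun x hx => Real.log_le_sub_one_of_pos (h2 x hx)
  rw [h1, Multiset.sum_map_sub, ← h3, eigs_sum] at h4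
  simpa using h4

theorem cfm_det {A : Matrix n n ℝ} (hM : (A * Aᵀ).IsHermitian) (s : ℝ) :
    (Aᵀ * A + s • (1 : Matrix n n ℝ)).det = ∏ j, (hM.eigenvalues j + s) := by
  have h := eval_charpoly (Aᵀ * A) (-s)
  have e : scalar n (-s) - Aᵀ * A = -(Aᵀ * A + s • (1 : Matrix n n ℝ)) := by
    rw [scalar_apply, ← smul_one_eq_diagonal, neg_smul]
    abel
  have e2 : ∀ j, -s - hM.eigenvalues j = -(hM.eigenvalues j + s) := fun j => by ring
  rw [charpoly_mul_comm, hM.charpoly_eq, e, det_neg, Polynomial.eval_prod] at h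
  simp only [Polynomial.eval_sub, Polynomial.eval_X, Polynomial.eval_C, RCLike.ofReal_real_eq_id,
    id, e2, Finset.prod_neg, Finset.card_univ] at h
  exact (mul_left_cancel₀ (pow_ne_zero _ (neg_ne_zero.2 one_ne_zero)) h).symm

theorem cfm_rank {R : Matrix n n ℝ} (hRR : R * R = R) : R.trace = R.rank := by
  have h : IsIdempotentElem (toLin' R) := by
    rw [IsIdempotentElem, Module.End.mul_eq_comp, ← toLin'_mul, hRR]
  rw [← trace_toLin'_eq, (LinearMap.IsIdempotentElem.isProj_range _ h).trace]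
  rfl

theorem tri_sum_log_le {N Q : Matrix n n ℝ} {B : ℝ} {L : ℕ} (hQ : Qᵀ = Q) (hQQ : Q * Q = Q)
    (hinv : Q * N * (1 - Q) = 0) (hnil : N ^ (L + 1) * (1 - Q) = 0) (hB : 1 ≤ B) (hN : Bd N B)
    (hM : ((1 + N) * (1 + N)ᵀ).IsHermitian) :
    ((eigs hM).map Real.log).sum ≤
      (Fintype.card n : ℝ) / 2 + Q.trace * (((L : ℝ) + 3) * (2 + 2 * B)) := by
  obtain ⟨R, hR⟩ : ∃ R, R = 1 - Q := ⟨_, rfl⟩
  have hRt : Rᵀ = R := by rw [hR, transpose_sub, transpose_one, hQ]
  have hRQ : R * Q = 0 := by rw [hR, sub_mul, one_mul, hQQ, sub_self]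
  have hQR : Q * R = 0 := by rw [hR, mul_sub, mul_one, hQQ, sub_self]
  have hRR : R * R = R := by
    conv_lhs => rw [hR, sub_mul, one_mul, ← hR, hQR, sub_zero]
  have htr : R.trace = Fintype.card n - Q.trace := by rw [hR, trace_sub, trace_one]
  rw [← hR] at hinv hnil
  have hRN : R * N * R = N * R := by
    have e : R * N * R = N * R - Q * N * R := by
      nth_rewrite 1 [hR]
      noncomm_ring
    rw [e, hinv, sub_zero]
  obtain ⟨G, g1, g2, g3⟩ := cfm_inv hRN hRR hB hN L
  have hAG : (1 + N) * (G * R) = R := by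
    rw [← mul_assoc, g2, sub_mul, one_mul, neg_pow, mul_assoc, hnil, mul_zero, sub_zero]
  have hpow : ∀ i : ℕ, (N * R) ^ (i + 1) = N ^ (i + 1) * R := by
    intro i
    induction i with
    | zero => simp
    | succ i ih => rw [pow_succ, ih, mul_assoc, ← mul_assoc R, hRN, ← mul_assoc, ← pow_succ]
  have hT : (G * R + Q).det = 1 := by
    have e : (1 + N * R) * (G * R + Q) =
        G * R + Q + N * (R * (G * R)) + N * (R * Q) := by noncomm_ring
    have e2 : G * R + Q + N * (G * R) = (1 + N) * (G * R) + Q := by noncomm_ring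
    rw [g3, hRQ, mul_zero, add_zero, e2, hAG, show R + Q = 1 by rw [hR, sub_add_cancel]] at e
    have h := congrArg det e
    rwa [det_mul, det_one_add_nil ⟨L + 1, by rw [hpow, hnil]⟩, one_mul, det_one] at h
  obtain ⟨C, hC⟩ : ∃ C, C = 2 + 2 * B := ⟨_, rfl⟩
  rw [← hC] at g1 ⊢
  have hC4 : 4 ≤ C := by linarith
  have hD : 1 ≤ C ^ L := one_le_pow₀ (by linarith)
  have hq : 0 ≤ Q.trace := by
    have := cfm_nonneg Q
    rwa [hQ, hQQ] at this
  have hr : 0 ≤ R.trace := by
    have := cfm_nonneg R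
    rwa [hRt, hRR] at this
  have f1 : ((G * R + Q)ᵀ * (G * R + Q)).trace ≤ 2 * C ^ L * Fintype.card n := by
    have a := cfm_add (G * R) Q
    have b := g1 R
    have c := mul_le_mul_of_nonneg_right hD hq
    rw [hRt, hRR, htr] at b
    rw [hQ, hQQ] at a
    linarith
  have f2 : (((1 + N) * (G * R + Q))ᵀ * ((1 + N) * (G * R + Q))).trace ≤
      Fintype.card n + C * Q.trace := by
    have a := cfm_add Q (N * Q)
    have b := hN Q
    have c : (Rᵀ * (Q + N * Q)).trace = 0 := by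
      rw [trace_mul_comm, hRt, add_mul, mul_assoc, hQR, mul_zero, add_zero, trace_zero]
    have d : ((Q + N * Q)ᵀ * R).trace = 0 := by
      rw [← trace_transpose, transpose_mul, transpose_transpose, c]
    rw [mul_add, hAG, add_mul 1 N Q, one_mul, transpose_add R, add_mul, mul_add Rᵀ,
      mul_add _ R, trace_add, trace_add, trace_add, c, d, hRt, hRR, htr, hC]
    rw [show Qᵀ * Q = Q by rw [hQ, hQQ]] at a b
    linarith
  obtain ⟨s, hs⟩ : ∃ s, s = (C ^ (L + 1))⁻¹ := ⟨_, rfl⟩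
  have hs0 : 0 < s := by rw [hs]; positivity
  have hp : ((1 + N) * (1 + N)ᵀ).PosSemidef := posSemidef_self_mul_conjTranspose _
  have hx : ∀ j, 0 ≤ hM.eigenvalues j := fun j => hp.eigenvalues_nonneg j
  have hxs : ∀ j, 0 < hM.eigenvalues j + s := fun j => add_pos_of_nonneg_of_pos (hx j) hs0
  have e : ((1 + N) * (G * R + Q))ᵀ * ((1 + N) * (G * R + Q)) + s • ((G * R + Q)ᵀ * (G * R + Q)) =
      (G * R + Q)ᵀ * ((1 + N)ᵀ * (1 + N) + s • (1 : Matrix n n ℝ)) * (G * R + Q) := by
    rw [transpose_mul, mul_add _ _ (s • _), add_mul _ (_ * s • _), Matrix.mul_smul, mul_one,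
      Matrix.smul_mul]
    simp only [mul_assoc]
  have hK : (((1 + N) * (G * R + Q))ᵀ * ((1 + N) * (G * R + Q)) +
      s • ((G * R + Q)ᵀ * (G * R + Q))).PosSemidef :=
    (posSemidef_conjTranspose_mul_self _).add ((posSemidef_conjTranspose_mul_self _).smul hs0.le)
  have hd : (((1 + N) * (G * R + Q))ᵀ * ((1 + N) * (G * R + Q)) +
      s • ((G * R + Q)ᵀ * (G * R + Q))).det = ∏ j, (hM.eigenvalues j + s) := by
    rw [e, det_mul, det_mul, det_transpose, hT, one_mul, mul_one, cfm_det hM]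
  have h1 := cfm_logdet hK (by rw [hd]; exact Finset.prod_pos fun j _ => hxs j)
  rw [hd, Real.log_prod fun j _ => (hxs j).ne', trace_add, trace_smul, smul_eq_mul] at h1
  have h2 : s * (2 * C ^ L * Fintype.card n) ≤ (Fintype.card n : ℝ) / 2 := by
    have a : s * (C ^ L * C) = 1 := by rw [hs, ← pow_succ, inv_mul_cancel₀ (by positivity)]
    have b : 0 ≤ s * C ^ L * Fintype.card n := by positivity
    have c := mul_le_mul_of_nonneg_left hC4 b
    have d := congrArg (· * (Fintype.card n : ℝ)) a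
    beta_reduce at d
    linarith
  have h3 := mul_le_mul_of_nonneg_left f1 hs0.le
  have h4 : -Real.log s ≤ (L + 1) * C := by
    rw [hs, Real.log_inv, neg_neg, Real.log_pow]
    push_cast
    exact mul_le_mul_of_nonneg_left (Real.log_le_self (by linarith)) (by positivity)
  have h5 : ∑ j, (if hM.eigenvalues j = 0 then (1 : ℝ) else 0) ≤ Q.trace := by
    have a := hM.rank_eq_card_non_zero_eigs
    have b : R.rank ≤ (1 + N).rank := by
      conv_lhs => rw [← hAG]
      exact rank_mul_le_left _ _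
    rw [rank_self_mul_transpose, Fintype.card_subtype] at a
    have c := Finset.card_filter_add_card_filter_not (s := Finset.univ)
      fun j => hM.eigenvalues j = 0
    rw [Finset.card_univ] at c
    have d : (Finset.univ.filter fun j => hM.eigenvalues j = 0).card + R.rank ≤
        Fintype.card n := by
      rw [← c]
      exact Nat.add_le_add_left (b.trans a.le) _
    have d' := (Nat.cast_le (α := ℝ)).2 d
    rw [Nat.cast_add, ← cfm_rank hRR, htr] at d'
    rw [Finset.sum_boole]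
    linarith
  have h6 : ∀ j ∈ Finset.univ, Real.log (hM.eigenvalues j) ≤ Real.log (hM.eigenvalues j + s) +
      (L + 1) * C * (if hM.eigenvalues j = 0 then (1 : ℝ) else 0) := by
    intro j _
    split_ifs with h
    · rw [h, Real.log_zero, zero_add]
      linarith
    · rw [mul_zero, add_zero]
      exact Real.log_le_log ((hx j).lt_of_ne' h) (by linarith)
  have h7 := Finset.sum_le_sum h6
  rw [Finset.sum_add_distrib, ← Finset.mul_sum] at h7
  have h8 := mul_le_mul_of_nonneg_left h5 (show 0 ≤ ((L : ℝ) + 1) * C by positivity)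
  have h9 : 0 ≤ C * Q.trace := by positivity
  rw [eigs_sum]
  linarith

end Pool.Agent.Lib.MP_75c153_gt.Cf
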