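import Pool.Agent.Lib.MP_75c153_gt.Cf.CfChain
import Pool.Agent.Lib.MP_75c153_gt.Ft.Spec

/-! The spectrum of the plumbing operator along the cofinal chain. -/

open Filter Topology Set Matrix

namespace Pool.Agent.Lib.MP_75c153_gt.Cf

open Pool.Agent.Lib.MP_570070_gt Pool.Agent.Lib.MP_75c153_gt.Ft
open Pool.Agent.Lib.MP_570070_gt.An (specb_transfer specb_pt)

theorem exists_spec_cof : ∃ (c : Par) (K : ℕ → Subgroup (FreeGroup (Fin (c.m + 1))))
    (_ : ∀ i, (K i).Normal) (_ : ∀ i, Fintype (FreeGroup (Fin (c.m + 1)) ⧸ K i))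
    (x : ∀ i, FreeGroup (Fin (c.m + 1)) ⧸ K i → ℝ), K 0 = ⊤ ∧ StrictAnti K ∧ ⨅ i, K i = ⊥ ∧
    (∀ i, (K i).FiniteIndex) ∧
    (∀ N : Subgroup (FreeGroup (Fin (c.m + 1))), N.FiniteIndex → ∃ i, K i ≤ N) ∧
    (∀ i (s : ℝ), ∃ W : Submodule ℝ ((FreeGroup (Fin (c.m + 1)) ⧸ K i) × Bool → ℝ),
      Module.finrank ℝ W = (Finset.univ.filter fun j => 0 < x i j ∧ x i j ≤ s).card ∧
      ∀ v ∈ W, ∑ p, ahat (grpGl c fun e => ((e.elim 1 FreeGroup.of : FreeGroup (Fin (c.m + 1))) :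
          FreeGroup (Fin (c.m + 1)) ⧸ K i)) v p ^ 2 ≤ s * ∑ p, v p ^ 2 ∧
        ∃ u, ahat (grpGl c fun e => ((e.elim 1 FreeGroup.of : FreeGroup (Fin (c.m + 1))) :
          FreeGroup (Fin (c.m + 1)) ⧸ K i)) u = v) ∧
    ∀ T : ℝ, 1 ≤ T → ∀ᶠ i in atTop, (Fintype.card (FreeGroup (Fin (c.m + 1)) ⧸ K i) : ℝ) ≤
      ∑ j, if 0 < x i j then max 0 (-Real.log (T * x i j)) else 0 := by
  classical
  obtain ⟨n, hn⟩ := exists_nat_gt (Real.exp 15)
  obtain ⟨t, t1, t2⟩ := exists_signs n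
  let c : Par := ⟨2 * n + 1, fun e => e.elim (-1) fun j => t j, by
    rintro (_ | j)
    · exact Or.inr rfl
    · change (t j : ℝ) = 1 ∨ (t j : ℝ) = -1
      exact_mod_cast t1 j⟩
  have := freeGroup_resFin (c.m + 1)
  obtain ⟨a, ha⟩ : ∃ a, a = elj (FreeGroup.of (0 : Fin (c.m + 1))) (qy 0) fun j => -t j :=
    ⟨_, rfl⟩
  obtain ⟨K, hnm, h1, h2, h3, hf, hcof, h0⟩ :=
    exists_chain_cof (0 : Fin (c.m + 1)) fun j => -t j
  let iF : ∀ i, Fintype (FreeGroup (Fin (c.m + 1)) ⧸ K i) := fun i =>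
    @Fintype.ofFinite _ Subgroup.finite_quotient_of_finiteIndex
  have hr : ∀ {k : Type} [Fintype k] [DecidableEq k] (ρ : FreeGroup (Fin (c.m + 1)) →* Matrix k k ℝ),
      rep ρ a = ∑ e : Ed c, (sg e * c.ε e) • ρ (e.elim 1 FreeGroup.of) := by
    intro k _ _ ρ
    rw [Fintype.sum_option]
    change _ = ((-1 : ℝ) * -1) • ρ 1 + ∑ j, ((1 : ℝ) * t j) • ρ (FreeGroup.of j)
    have e : ∑ j : Fin (c.m + 1), t j • ρ (FreeGroup.of 0) = 0 := by
      rw [← Finset.sum_smul, show ∑ j : Fin (c.m + 1), t j = 0 from t2, zero_smul]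
    have e2 : ∀ j, ρ (FreeGroup.of 0) * ρ (qy 0 j) = ρ (FreeGroup.of j) := fun j => by
      rw [← map_mul, qy, mul_inv_cancel_left]
    simp only [ha, elj, map_add, map_one, map_mul, map_sum, map_sub, map_zsmul, rep_single,
      one_smul]
    simp only [mul_neg, Finset.mul_sum, mul_smul_comm, mul_sub, mul_one, e2, neg_smul, smul_sub,
      Finset.sum_sub_distrib, Finset.sum_neg_distrib, e, neg_zero, zero_sub, neg_neg,
      one_smul, one_mul, Int.cast_smul_eq_zsmul]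
    rfl
  choose hM g1 _ _ using fun i => exists_eigs (QuotientGroup.mk' (K i)) a
  have g0 : ∀ i j, 0 ≤ (hM i).eigenvalues j := fun i j =>
    (g1 i _ (Multiset.mem_map_of_mem _ (Finset.mem_univ_val j))).1
  refine ⟨c, K, hnm, iF, fun i => (hM i).eigenvalues, h1, h2, h3, hf, hcof, fun i s => ?_,
    fun T hT => ?_⟩
  · exact exists_small_space_grp c _ _ (hr ((reg _).comp (QuotientGroup.mk' (K i)))) (hM i) s
  · filter_upwards [spec_lower (s := fun e : Ed c => sg e * c.ε e) (fun e => by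
      rcases e with _ | j
      · exact Or.inl (by simp [sg, c])
      · simpa [sg] using c.hε (some j)) (by simp [sg, c]) _ h2.antitone h3
      (fun i => hr ((reg _).comp (QuotientGroup.mk' (K i)))) hM g0
      (inv_pos.2 (zero_lt_one.trans_le hT)), eventually_ge_atTop 1] with i h hi
    obtain ⟨l, rfl⟩ := Nat.exists_eq_add_of_le' hi
    obtain ⟨H, _, _, _, π, hk, hs⟩ := h0 l
    rw [← ha] at hs
    generalize l + 1 = i at *
    obtain ⟨hN, -⟩ := exists_eigs π a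
    have hH : (0 : ℝ) < Fintype.card H := by exact_mod_cast Fintype.card_pos
    have hQ : (0 : ℝ) ≤ Fintype.card (FreeGroup (Fin (c.m + 1)) ⧸ K i) := Nat.cast_nonneg _
    have h6 := hs hN
    have h7 := specb_transfer π (QuotientGroup.mk' (K i))
      ((QuotientGroup.ker_mk' _).trans hk.symm) _ hN (hM i) Real.log Real.log_zero
    rw [eigs_sum (hM i)] at h7
    have h8 : ∑ j, Real.log ((hM i).eigenvalues j) ≤
        Fintype.card (FreeGroup (Fin (c.m + 1)) ⧸ K i) := by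
      refine le_of_mul_le_mul_left ?_ hH
      rw [h7, mul_comm (Fintype.card H : ℝ)]
      exact mul_le_mul_of_nonneg_left h6 hQ
    have h9 := Finset.sum_le_sum fun j (_ : j ∈ Finset.univ) => specb_pt hT (g0 i j)
    rw [Finset.sum_add_distrib] at h9
    have h10 : 15 ≤ Real.log (Fintype.card (Fin (c.m + 1)) + 1) := by
      rw [Real.le_log_iff_exp_le (by positivity), Fintype.card_fin]
      change _ ≤ ((2 * n + 1 + 1 : ℕ) : ℝ) + 1
      push_cast
      linarith [Nat.cast_nonneg (α := ℝ) n]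
    nlinarith [mul_le_mul_of_nonneg_left h10 hQ]

end Pool.Agent.Lib.MP_75c153_gt.Cf
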